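import Pool.Agent.W250.RS.Stm

/-!
# Expected number of values by second moments
-/

set_option autoImplicit false

open Finset

namespace Pool.Agent.W976.RSEX

open Pool.Agent.W250.RS

lemma two_card_le {ι β : Type} [Fintype ι] [DecidableEq ι] [DecidableEq β] (p : ι → Prop)
    [DecidablePred p] (h : ι → β) :
    2 * (univ.filter p).card ≤ 2 * ((univ.filter p).image h).card +
      ((univ : Finset (ι × ι)).filter
        (fun q => q.1 ≠ q.2 ∧ (p q.1 ∧ p q.2 ∧ h q.2 = h q.1))).card := by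
  set T := univ.filter p with hT
  set P := (univ : Finset (ι × ι)).filter
    (fun q => q.1 ≠ q.2 ∧ (p q.1 ∧ p q.2 ∧ h q.2 = h q.1)) with hP
  have h1 : T.card = ∑ v ∈ T.image h, (T.filter (fun c => h c = v)).card :=
    Finset.card_eq_sum_card_image h T
  have h2 : P.card = ∑ v ∈ T.image h, (P.filter (fun q => h q.1 = v)).card := by
    apply Finset.card_eq_sum_card_fiberwise
    intro q hq
    rw [hP, Finset.mem_coe, Finset.mem_filter] at hq
    exact Finset.mem_coe.2 (Finset.mem_image_of_mem h (by rw [hT]; simp [hq.2.2.1]))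
  have h3 : ∀ v ∈ T.image h, 2 * (T.filter (fun c => h c = v)).card ≤
      2 + (P.filter (fun q => h q.1 = v)).card := by
    intro v hv
    have e1 : P.filter (fun q => h q.1 = v) = (T.filter (fun c => h c = v)).offDiag := by
      ext ⟨a, b⟩
      simp only [hP, hT, mem_filter, mem_univ, true_and, mem_offDiag]
      constructor
      · rintro ⟨⟨h1, h2, h3, h4⟩, h5⟩
        exact ⟨⟨h2, h5⟩, ⟨h3, h4.trans h5⟩, h1⟩
      · rintro ⟨⟨h1, h2⟩, ⟨h3, h4⟩, h5⟩
        exact ⟨⟨h5, h1, h3, h4.trans h2.symm⟩, h2⟩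
    rw [e1, Finset.offDiag_card]
    have e2 : 0 < (T.filter (fun c => h c = v)).card := by
      rw [Finset.card_pos]
      obtain ⟨c, hc, hcv⟩ := Finset.mem_image.1 hv
      exact ⟨c, Finset.mem_filter.2 ⟨hc, hcv⟩⟩
    obtain ⟨z, hz⟩ : ∃ z, (T.filter (fun c => h c = v)).card = z + 1 := ⟨_, (Nat.succ_pred_eq_of_pos e2).symm⟩
    rw [hz]
    have e3 : (z + 1) * (z + 1) - (z + 1) = z * (z + 1) := by
      rw [show (z + 1) * (z + 1) = z * (z + 1) + (z + 1) by ring, Nat.add_sub_cancel]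
    rw [e3]
    have e4 : z ≤ z * z := Nat.le_mul_self z
    nlinarith
  have h4 := Finset.sum_le_sum h3
  rw [← Finset.mul_sum, ← h1, Finset.sum_add_distrib, ← h2, Finset.sum_const, smul_eq_mul] at h4
  linarith

lemma card_eq_at (k m : ℕ) (l : Fin k) :
    ((univ : Finset ((Fin k → Fin m) × (Fin k → Fin m))).filter
      (fun q => q.1 l = q.2 l)).card ≤ m ^ k * m ^ (k - 1) := by
  have h1 : ((univ : Finset ((Fin k → Fin m) × (Fin k → Fin m))).filter
      (fun q => q.1 l = q.2 l)).card ≤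
      (univ : Finset ((Fin k → Fin m) × ({j : Fin k // j ≠ l} → Fin m))).card := by
    apply Finset.card_le_card_of_injOn (fun q => (q.1, fun j => q.2 j.1))
    · intro q _; exact Finset.mem_coe.2 (Finset.mem_univ _)
    · intro q hq q' hq' he
      rw [Finset.mem_coe, Finset.mem_filter] at hq hq'
      have he' : ((q.1, fun j : {j : Fin k // j ≠ l} => q.2 j.1) :
        (Fin k → Fin m) × ({j : Fin k // j ≠ l} → Fin m)) = (q'.1, fun j => q'.2 j.1) := he
      obtain ⟨e1, e2⟩ := Prod.mk.inj he'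
      refine Prod.ext e1 (funext fun j => ?_)
      by_cases hj : j = l
      · subst hj
        rw [← hq.2, ← hq'.2, e1]
      · exact congrFun e2 ⟨j, hj⟩
  refine h1.trans (le_of_eq ?_)
  rw [Finset.card_univ, Fintype.card_prod, Fintype.card_fun, Fintype.card_fun, Fintype.card_fin,
    Fintype.card_fin]
  congr 2
  simp

theorem t_EX (h1 : S_C1) (h2 : S_C2) (h3 : S_C3) : S_EX := by
  intro α β _ _ X k m N K G g hX hk hkm hG hK hinj hA hB
  have hn : 0 < X.card := hX.card_pos
  rcases Nat.eq_zero_or_pos m with hm | hm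
  · subst hm
    have : ((0 : ℕ) : ℝ) ^ k = 0 := by
      rw [Nat.cast_zero]; exact zero_pow (by omega)
    rw [this, zero_mul, zero_mul]
    exact mul_nonneg (by positivity) (Finset.sum_nonneg fun _ _ => Nat.cast_nonneg _)
  -- the index tuples
  let blk : Fin k × Fin m → Fin N := fun q => Fin.castLE hkm (finProdFinEquiv q)
  have hblk : Function.Injective blk := fun q q' h =>
    finProdFinEquiv.injective (Fin.castLE_injective hkm h)
  let idx : (Fin k → Fin m) → Fin k → Fin N := fun b l => blk (l, b l)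
  have hidx : ∀ b, Function.Injective (idx b) := fun b l l' h => congrArg Prod.fst (hblk h)
  have hne : ∀ b c i j, idx b i = idx c j → i = j ∧ b i = c j := fun b c i j h =>
    ⟨congrArg Prod.fst (hblk h), congrArg Prod.snd (hblk h)⟩
  -- second moments
  let E : (Fin k → Fin m) × (Fin k → Fin m) → ℕ := fun q =>
    ((tup X N).filter (fun f => f ∘ idx q.1 ∈ G ∧ f ∘ idx q.2 ∈ G ∧
      g (f ∘ idx q.2) = g (f ∘ idx q.1))).card
  let W : ℕ := G.card * X.card ^ N
  have hpt : ∀ f ∈ tup X N, 2 * (univ.filter (fun b => f ∘ idx b ∈ G)).card ≤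
      2 * ((univ : Finset (Fin k → Fin N)).image (fun ι => g (f ∘ ι))).card +
      ((univ : Finset ((Fin k → Fin m) × (Fin k → Fin m))).filter (fun q => q.1 ≠ q.2 ∧
        (f ∘ idx q.1 ∈ G ∧ f ∘ idx q.2 ∈ G ∧ g (f ∘ idx q.2) = g (f ∘ idx q.1)))).card := by
    intro f _
    have e1 := two_card_le (fun b => f ∘ idx b ∈ G) (fun b => g (f ∘ idx b))
    have e2 : ((univ.filter (fun b => f ∘ idx b ∈ G)).image (fun b => g (f ∘ idx b))).card ≤
        ((univ : Finset (Fin k → Fin N)).image (fun ι => g (f ∘ ι))).card := by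
      apply Finset.card_le_card
      intro v hv
      obtain ⟨b, _, hb⟩ := Finset.mem_image.1 hv
      exact Finset.mem_image.2 ⟨idx b, Finset.mem_univ _, hb⟩
    omega
  have hsum := Finset.sum_le_sum hpt
  rw [Finset.sum_add_distrib, ← Finset.mul_sum, ← Finset.mul_sum] at hsum
  -- the first moment
  have hY : (∑ f ∈ tup X N, (univ.filter (fun b => f ∘ idx b ∈ G)).card) * X.card ^ k =
      m ^ k * W := by
    have e1 : ∑ f ∈ tup X N, (univ.filter (fun b => f ∘ idx b ∈ G)).card =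
        ∑ b : Fin k → Fin m, ((tup X N).filter (fun f => f ∘ idx b ∈ G)).card := by
      simp only [Finset.card_filter]
      exact Finset.sum_comm
    rw [e1, Finset.sum_mul, Finset.sum_congr rfl fun b _ => h1 α X k N G (idx b) hG (hidx b),
      Finset.sum_const, Finset.card_univ, Fintype.card_fun, Fintype.card_fin, Fintype.card_fin,
      smul_eq_mul]
  -- the second moment
  have hC : ∑ f ∈ tup X N, ((univ : Finset ((Fin k → Fin m) × (Fin k → Fin m))).filter
      (fun q => q.1 ≠ q.2 ∧ (f ∘ idx q.1 ∈ G ∧ f ∘ idx q.2 ∈ G ∧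
        g (f ∘ idx q.2) = g (f ∘ idx q.1)))).card =
      ∑ q ∈ (univ : Finset ((Fin k → Fin m) × (Fin k → Fin m))).filter (fun q => q.1 ≠ q.2),
        E q := by
    have e1 : ∀ f ∈ tup X N, ((univ : Finset ((Fin k → Fin m) × (Fin k → Fin m))).filter
      (fun q => q.1 ≠ q.2 ∧ (f ∘ idx q.1 ∈ G ∧ f ∘ idx q.2 ∈ G ∧
        g (f ∘ idx q.2) = g (f ∘ idx q.1)))).card =
        ∑ q ∈ (univ : Finset ((Fin k → Fin m) × (Fin k → Fin m))).filter (fun q => q.1 ≠ q.2),
        if (f ∘ idx q.1 ∈ G ∧ f ∘ idx q.2 ∈ G ∧ g (f ∘ idx q.2) = g (f ∘ idx q.1)) then 1 else 0 := by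
      intro f _
      rw [← Finset.filter_filter, Finset.card_filter]
    rw [Finset.sum_congr rfl e1, Finset.sum_comm]
    refine Finset.sum_congr rfl fun q _ => ?_
    show _ = ((tup X N).filter (fun f => f ∘ idx q.1 ∈ G ∧ f ∘ idx q.2 ∈ G ∧
      g (f ∘ idx q.2) = g (f ∘ idx q.1))).card
    rw [Finset.card_filter]
  let QA := (univ : Finset ((Fin k → Fin m) × (Fin k → Fin m))).filter (fun q => ∀ l, q.1 l ≠ q.2 l)
  let QB := (univ : Finset ((Fin k → Fin m) × (Fin k → Fin m))).filter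
    (fun q => q.1 ≠ q.2 ∧ ∃ l, q.1 l = q.2 l)
  have hAB : ∑ q ∈ (univ : Finset ((Fin k → Fin m) × (Fin k → Fin m))).filter
      (fun q => q.1 ≠ q.2), E q ≤ ∑ q ∈ QA, E q + ∑ q ∈ QB, E q := by
    have e1 : (univ : Finset ((Fin k → Fin m) × (Fin k → Fin m))).filter (fun q => q.1 ≠ q.2) ⊆
        QA ∪ QB := by
      intro q hq
      rw [Finset.mem_filter] at hq
      rw [Finset.mem_union]
      by_cases h : ∀ l, q.1 l ≠ q.2 l
      · left; exact Finset.mem_filter.2 ⟨Finset.mem_univ _, h⟩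
      · right
        push Not at h
        exact Finset.mem_filter.2 ⟨Finset.mem_univ _, hq.2, h⟩
    refine (Finset.sum_le_sum_of_subset e1).trans ?_
    have e5 : ∑ q ∈ QA ∪ QB, E q + ∑ q ∈ QA ∩ QB, E q = ∑ q ∈ QA, E q + ∑ q ∈ QB, E q :=
      Finset.sum_union_inter (s₁ := QA) (s₂ := QB) (f := E)
    exact (Nat.le_add_right _ _).trans (le_of_eq e5)
  have hQA : QA.card ≤ m ^ k * m ^ k := by
    refine (Finset.card_le_univ _).trans (le_of_eq ?_)
    rw [Fintype.card_prod, Fintype.card_fun, Fintype.card_fin, Fintype.card_fin]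
  have hQB : QB.card ≤ k * (m ^ k * m ^ (k - 1)) := by
    have e1 : QB ⊆ (univ : Finset (Fin k)).biUnion (fun l =>
        (univ : Finset ((Fin k → Fin m) × (Fin k → Fin m))).filter (fun q => q.1 l = q.2 l)) := by
      intro q hq
      obtain ⟨_, _, l, hl⟩ := Finset.mem_filter.1 hq
      exact Finset.mem_biUnion.2 ⟨l, Finset.mem_univ _, Finset.mem_filter.2 ⟨Finset.mem_univ _, hl⟩⟩
    refine (Finset.card_le_card e1).trans (Finset.card_biUnion_le.trans ?_)
    refine (Finset.sum_le_sum fun l _ => card_eq_at k m l).trans ?_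
    rw [Finset.sum_const, Finset.card_univ, Fintype.card_fin, smul_eq_mul]
  have hnk : 0 < X.card ^ k := Nat.pow_pos hn
  have hmk : 0 < m ^ k := Nat.pow_pos hm
  -- pairs of the first kind
  have hEA : ∀ q ∈ QA, 2 * m ^ k * X.card ^ k * E q ≤ W := by
    intro q hq
    have hq' := (Finset.mem_filter.1 hq).2
    have e1 := h2 α β X k N K G g (idx q.1) (idx q.2) hG hK (hidx _) (hidx _)
      (fun i j h => hq' i (by
        obtain ⟨h4, h5⟩ := hne _ _ _ _ h
        subst h4; exact h5))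
    have e2 : E q * X.card ^ (2 * k) ≤ G.card * K * X.card ^ N := e1
    have e3 : X.card ^ (2 * k) = X.card ^ k * X.card ^ k := by rw [two_mul, pow_add]
    rw [e3] at e2
    refine Nat.le_of_mul_le_mul_left ?_ hnk
    calc X.card ^ k * (2 * m ^ k * X.card ^ k * E q) =
        2 * m ^ k * (E q * (X.card ^ k * X.card ^ k)) := by ring
      _ ≤ 2 * m ^ k * (G.card * K * X.card ^ N) := Nat.mul_le_mul_left _ e2
      _ = (2 * m ^ k * K) * W := by show _ = (2 * m ^ k * K) * (G.card * X.card ^ N); ring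
      _ ≤ X.card ^ k * W := Nat.mul_le_mul_right _ hA
  have hSA : 2 * (X.card ^ k * ∑ q ∈ QA, E q) ≤ m ^ k * W := by
    refine Nat.le_of_mul_le_mul_left ?_ hmk
    calc m ^ k * (2 * (X.card ^ k * ∑ q ∈ QA, E q)) =
        ∑ q ∈ QA, 2 * m ^ k * X.card ^ k * E q := by rw [← Finset.mul_sum]; ring
      _ ≤ ∑ _q ∈ QA, W := Finset.sum_le_sum hEA
      _ = QA.card * W := by rw [Finset.sum_const, smul_eq_mul]
      _ ≤ (m ^ k * m ^ k) * W := Nat.mul_le_mul_right _ hQA
      _ = m ^ k * (m ^ k * W) := by ring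
  -- pairs of the second kind
  have hEB : ∀ q ∈ QB, X.card ^ (k + 1) * E q ≤ W := by
    intro q hq
    have hq' := (Finset.mem_filter.1 hq).2
    obtain ⟨l, hl⟩ : ∃ l, q.1 l ≠ q.2 l := by
      by_contra hcon
      push Not at hcon
      exact hq'.1 (funext hcon)
    have e1 := h3 α β X k N G g (idx q.1) (idx q.2) l hG hinj (hidx _) (hidx _)
      (fun i h => hl (by
        obtain ⟨h4, h5⟩ := hne _ _ _ _ h
        subst h4; exact h5))
    have e2 : E q * X.card ^ (k + 1) ≤ G.card * X.card ^ N := e1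
    rw [mul_comm]; exact e2
  have hSB : 2 * (X.card ^ k * ∑ q ∈ QB, E q) ≤ m ^ k * W := by
    refine Nat.le_of_mul_le_mul_left ?_ hn
    calc X.card * (2 * (X.card ^ k * ∑ q ∈ QB, E q)) =
        2 * ∑ q ∈ QB, X.card ^ (k + 1) * E q := by rw [← Finset.mul_sum]; ring
      _ ≤ 2 * ∑ _q ∈ QB, W := Nat.mul_le_mul_left _ (Finset.sum_le_sum hEB)
      _ = 2 * (QB.card * W) := by rw [Finset.sum_const, smul_eq_mul]
      _ ≤ 2 * ((k * (m ^ k * m ^ (k - 1))) * W) :=
        Nat.mul_le_mul_left _ (Nat.mul_le_mul_right _ hQB)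
      _ = (2 * k * m ^ (k - 1)) * (m ^ k * W) := by ring
      _ ≤ X.card * (m ^ k * W) := Nat.mul_le_mul_right _ hB
  have hfin : m ^ k * W ≤ 2 * X.card ^ k *
      ∑ f ∈ tup X N, ((univ : Finset (Fin k → Fin N)).image (fun ι => g (f ∘ ι))).card := by
    rw [hC] at hsum
    have e1 := Nat.mul_le_mul_left (X.card ^ k) hsum
    have e2 := Nat.mul_le_mul_left (X.card ^ k) hAB
    have e3 : X.card ^ k * (2 * ∑ f ∈ tup X N, (univ.filter (fun b => f ∘ idx b ∈ G)).card) =
        2 * (m ^ k * W) := by rw [← hY]; ring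
    rw [e3] at e1
    nlinarith
  have hcast := (Nat.cast_le (α := ℝ)).2 hfin
  push_cast at hcast
  have hW : ((W : ℕ) : ℝ) = (G.card : ℝ) * (X.card : ℝ) ^ N := by
    show ((G.card * X.card ^ N : ℕ) : ℝ) = _
    push_cast; ring
  rw [hW, ← mul_assoc] at hcast
  exact hcast

end Pool.Agent.W976.RSEX
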